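import Mathlib

/-!
# Sharp dyadic sums: `∑ ∏ D ^ (-θ) ≤ C M ∏ R ^ (1 - θ)` if the boxes `D ≤ η` hold at most `M ∏ η` points
-/

set_option autoImplicit false

namespace Pool.Agent.H37.WS

open Finset

/-- the sum of the powers of two over a bounded range -/
theorem geo {θ : ℝ} (h1 : θ < 1) (N : ℕ) :
    ∑ j ∈ range N, ((2 : ℝ) ^ (-(1 - θ))) ^ j ≤ (1 - (2 : ℝ) ^ (-(1 - θ)))⁻¹ := by
  have h2 : (2 : ℝ) ^ (-(1 - θ)) < 1 := by
    apply Real.rpow_lt_one_of_one_lt_of_neg (by norm_num)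
    linarith
  have h3 : 0 < (2 : ℝ) ^ (-(1 - θ)) := Real.rpow_pos_of_pos (by norm_num) _
  have h4 : Summable fun j : ℕ => ((2 : ℝ) ^ (-(1 - θ))) ^ j :=
    summable_geometric_of_lt_one h3.le h2
  rw [← tsum_geometric_of_lt_one h3.le h2]
  exact h4.sum_le_tsum _ fun j _ => by positivity

theorem shp {κ : Type} [Fintype κ] {θ : ℝ} (h0 : 0 ≤ θ) (h1 : θ < 1) : ∃ C : ℝ, 1 ≤ C ∧
    ∀ (ι : Type) (S : Finset ι) (D : ι → κ → ℝ) (R : κ → ℝ) (M : ℝ), 0 ≤ M → (∀ v, 0 < R v) →
    (∀ t ∈ S, ∀ v, 0 < D t v ∧ D t v ≤ R v) →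
    (∀ η : κ → ℝ, (∀ v, 0 < η v ∧ η v ≤ R v) → ∀ S' ⊆ S, S'.Nonempty →
      (∀ t ∈ S', ∀ v, D t v ≤ η v) → (S'.card : ℝ) ≤ M * ∏ v, η v) →
    ∑ t ∈ S, ∏ v, (D t v) ^ (-θ) ≤ C * M * ∏ v, (R v) ^ (1 - θ) := by
  classical
  obtain ⟨q, hq⟩ : ∃ q : ℝ, q = (2 : ℝ) ^ (-(1 - θ)) := ⟨_, rfl⟩
  have hq0 : 0 < q := by rw [hq]; exact Real.rpow_pos_of_pos (by norm_num) _
  have hq1 : q < 1 := by
    rw [hq]
    apply Real.rpow_lt_one_of_one_lt_of_neg (by norm_num)
    linarith
  obtain ⟨B, hB⟩ : ∃ B : ℝ, B = 2 ^ θ * (1 - q)⁻¹ := ⟨_, rfl⟩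
  have hB1 : 1 ≤ B := by
    rw [hB]
    have h2 : (1 : ℝ) ≤ 2 ^ θ := Real.one_le_rpow (by norm_num) h0
    have h3 : (1 : ℝ) ≤ (1 - q)⁻¹ := (one_le_inv₀ (by linarith)).2 (by linarith)
    nlinarith
  refine ⟨B ^ Fintype.card κ, one_le_pow₀ hB1, fun ι S D R M hM hR hD hcl => ?_⟩
  let g : ι → κ → ℕ := fun t v => ⌊Real.logb 2 (R v / D t v)⌋₊
  obtain ⟨N, hN⟩ : ∃ N : ℕ, ∀ t ∈ S, ∀ v, g t v < N := by
    refine ⟨(S.sup fun t => univ.sup fun v => g t v) + 1, fun t ht v => ?_⟩
    have h2 : g t v ≤ univ.sup fun v => g t v := Finset.le_sup (f := fun v => g t v) (mem_univ v)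
    have h3 : (univ.sup fun v => g t v) ≤ S.sup fun t => univ.sup fun v => g t v :=
      Finset.le_sup (f := fun t => univ.sup fun v => g t v) ht
    omega
  let T : Finset (κ → ℕ) := Fintype.piFinset fun _ => range N
  have hmap : ∀ t ∈ S, g t ∈ T := fun t ht =>
    Fintype.mem_piFinset.2 fun v => mem_range.2 (hN t ht v)
  have hgt : ∀ t ∈ S, ∀ v, (2 : ℝ) ^ (g t v) * D t v ≤ R v ∧ R v < 2 ^ (g t v + 1) * D t v := by
    intro t ht v
    obtain ⟨hp, hle⟩ := hD t ht v
    have h2 : 1 ≤ R v / D t v := (one_le_div hp).2 hle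
    have h3 : 0 ≤ Real.logb 2 (R v / D t v) := Real.logb_nonneg (by norm_num) h2
    have h4 : (2 : ℝ) ^ Real.logb 2 (R v / D t v) = R v / D t v :=
      Real.rpow_logb (by norm_num) (by norm_num) (by positivity)
    have h5 : ((g t v : ℕ) : ℝ) ≤ Real.logb 2 (R v / D t v) := Nat.floor_le h3
    have h6 : Real.logb 2 (R v / D t v) < (g t v : ℕ) + 1 := Nat.lt_floor_add_one _
    constructor
    · have h7 : (2 : ℝ) ^ (g t v) ≤ R v / D t v := by
        rw [← h4, ← Real.rpow_natCast]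
        exact Real.rpow_le_rpow_of_exponent_le (by norm_num) h5
      rwa [le_div_iff₀ hp] at h7
    · have h7 : R v / D t v < (2 : ℝ) ^ (g t v + 1) := by
        rw [← h4, ← Real.rpow_natCast]
        apply Real.rpow_lt_rpow_of_exponent_lt (by norm_num)
        push_cast
        exact h6
      rwa [div_lt_iff₀ hp] at h7
  rw [← Finset.sum_fiberwise_of_maps_to hmap]
  have hfib : ∀ j ∈ T, ∑ t ∈ S.filter (fun t => g t = j), ∏ v, (D t v) ^ (-θ) ≤
      M * ∏ v, (2 ^ θ * q ^ (j v) * (R v) ^ (1 - θ)) := by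
    intro j _
    rcases (S.filter fun t => g t = j).eq_empty_or_nonempty with he | hne
    · rw [he, sum_empty]
      refine mul_nonneg hM (prod_nonneg fun v _ => ?_)
      have := hR v
      positivity
    have hη : ∀ v, 0 < R v / 2 ^ (j v) ∧ R v / 2 ^ (j v) ≤ R v := by
      intro v
      have := hR v
      refine ⟨by positivity, ?_⟩
      exact div_le_self this.le (one_le_pow₀ (by norm_num))
    have h2 := hcl (fun v => R v / 2 ^ (j v)) hη _ (filter_subset _ _) hne ?_
    · calc ∑ t ∈ S.filter (fun t => g t = j), ∏ v, (D t v) ^ (-θ)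
          ≤ ∑ t ∈ S.filter (fun t => g t = j), ∏ v, (R v / 2 ^ (j v + 1)) ^ (-θ) := by
            refine sum_le_sum fun t ht => ?_
            obtain ⟨htS, htj⟩ := mem_filter.1 ht
            refine prod_le_prod (fun v _ => ?_) fun v _ => ?_
            · exact Real.rpow_nonneg (hD t htS v).1.le _
            · have h3 := (hgt t htS v).2
              rw [htj] at h3
              have h4 : R v / 2 ^ (j v + 1) ≤ D t v := by
                rw [div_le_iff₀ (by positivity), mul_comm]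
                exact h3.le
              have h5 : 0 < R v / 2 ^ (j v + 1) := by have := hR v; positivity
              exact Real.rpow_le_rpow_of_nonpos h5 h4 (by linarith)
        _ = ((S.filter fun t => g t = j).card : ℝ) * ∏ v, (R v / 2 ^ (j v + 1)) ^ (-θ) := by
            rw [sum_const, nsmul_eq_mul]
        _ ≤ (M * ∏ v, R v / 2 ^ (j v)) * ∏ v, (R v / 2 ^ (j v + 1)) ^ (-θ) := by
            refine mul_le_mul_of_nonneg_right h2 (prod_nonneg fun v _ => ?_)
            have := hR v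
            positivity
        _ = M * ∏ v, (2 ^ θ * q ^ (j v) * (R v) ^ (1 - θ)) := by
            rw [mul_assoc, ← prod_mul_distrib]
            congr 1
            refine prod_congr rfl fun v _ => ?_
            have hv := hR v
            have e1 : (R v / 2 ^ (j v + 1)) ^ (-θ) =
                (R v) ^ (-θ) * (2 : ℝ) ^ (θ * ((j v : ℝ) + 1)) := by
              rw [Real.div_rpow hv.le (by positivity), ← Real.rpow_natCast 2 (j v + 1),
                ← Real.rpow_mul (by norm_num), div_eq_mul_inv, ← Real.rpow_neg (by norm_num)]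
              congr 2
              push_cast
              ring
            have e2 : R v / 2 ^ (j v) = R v * (2 : ℝ) ^ (-(j v : ℝ)) := by
              rw [div_eq_mul_inv, ← Real.rpow_natCast, ← Real.rpow_neg (by norm_num)]
            have e3 : q ^ (j v) = (2 : ℝ) ^ (-(1 - θ) * (j v : ℝ)) := by
              rw [hq, ← Real.rpow_natCast, ← Real.rpow_mul (by norm_num)]
            have e4 : (R v) ^ (1 - θ) = R v * (R v) ^ (-θ) := by
              rw [sub_eq_add_neg, Real.rpow_add hv, Real.rpow_one]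
            rw [e1, e2, e3, e4]
            have e5 : (2 : ℝ) ^ (θ * ((j v : ℝ) + 1)) * (2 : ℝ) ^ (-(j v : ℝ)) =
                2 ^ θ * (2 : ℝ) ^ (-(1 - θ) * (j v : ℝ)) := by
              rw [← Real.rpow_add (by norm_num), ← Real.rpow_add (by norm_num)]
              congr 1
              ring
            calc R v * (2 : ℝ) ^ (-(j v : ℝ)) * ((R v) ^ (-θ) * (2 : ℝ) ^ (θ * ((j v : ℝ) + 1)))
                = R v * (R v) ^ (-θ) *
                  ((2 : ℝ) ^ (θ * ((j v : ℝ) + 1)) * (2 : ℝ) ^ (-(j v : ℝ))) := by ring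
              _ = 2 ^ θ * (2 : ℝ) ^ (-(1 - θ) * (j v : ℝ)) * (R v * (R v) ^ (-θ)) := by
                  rw [e5]; ring
    · intro t ht v
      obtain ⟨htS, htj⟩ := mem_filter.1 ht
      have h3 := (hgt t htS v).1
      rw [htj] at h3
      rw [le_div_iff₀ (by positivity), mul_comm]
      exact h3
  calc ∑ j ∈ T, ∑ t ∈ S.filter (fun t => g t = j), ∏ v, (D t v) ^ (-θ)
      ≤ ∑ j ∈ T, M * ∏ v, (2 ^ θ * q ^ (j v) * (R v) ^ (1 - θ)) := sum_le_sum hfib
    _ = M * ∏ v, ∑ i ∈ range N, (2 ^ θ * q ^ i * (R v) ^ (1 - θ)) := by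
        rw [← mul_sum]
        congr 1
        rw [Finset.prod_univ_sum]
    _ ≤ M * ∏ v : κ, (B * (R v) ^ (1 - θ)) := by
        refine mul_le_mul_of_nonneg_left ?_ hM
        refine prod_le_prod (fun v _ => sum_nonneg fun i _ => ?_) fun v _ => ?_
        · have := hR v
          positivity
        · have hv := hR v
          have h2 : ∑ i ∈ range N, (2 ^ θ * q ^ i * (R v) ^ (1 - θ)) =
              2 ^ θ * (∑ i ∈ range N, q ^ i) * (R v) ^ (1 - θ) := by
            rw [mul_sum, sum_mul]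
          rw [h2]
          refine mul_le_mul_of_nonneg_right ?_ (by positivity)
          rw [hB]
          refine mul_le_mul_of_nonneg_left ?_ (by positivity)
          have h3 := geo h1 N
          rw [← hq] at h3
          exact h3
    _ = B ^ Fintype.card κ * M * ∏ v, (R v) ^ (1 - θ) := by
        rw [prod_mul_distrib, prod_const, card_univ]
        ring

end Pool.Agent.H37.WS
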